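import Pool.Agent.H201.AD.Engine
import Pool.Graph.R_pool_sql_team_seeded_2aa45f1a.Results.MP_07b2d0_nt.ExactReductions

/-!
# The effective Shafarevich conjecture: boundedly many guesses and few exceptions

`AV N g` is the set of isomorphism classes of abelian schemes of relative dimension `g` over `ℤ[1/N]`, and
`h` is the stable Faltings height. Question Q1 asks for an algorithm which computes from `N` and `g` a bound
for the heights of all `A` in `AV N g`.

For a number `j` consider the simple abelian varieties of dimension at most `j` over `ℚ` with good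
reduction at all primes `p > j`. `FewExceptions D j c e` says that for every `g ≤ j` at most `e` isogeny classes of
such abelian varieties of dimension `g` have no member of height at most `c`.

**Theorem.** The following are equivalent.

1. Question Q1.
2. There are a number `k`, a computable function `e`, a decidable set `r` of numbers `j`, and a partial
  algorithm which produces for every `j` in `r` at most `k` numbers such that one of them, `c` say, satisfies
  `FewExceptions D j c (e j)`. (It is not known which one, and not known how many are produced.) The set `r`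
  may be as thin as one likes, and `e j` may be anything which is `o(2 ^ π(j))` along `r`, where `π(j)` is
  the number of primes up to `j`.
3. The same with an algorithm which approximates such a number `c` and changes its mind at most `k` times
  for each `j` in `r`.

Besides the facts `IsSetting` of the imported file, quadratic twists are used (`HasTwists`).
-/

set_option autoImplicit false

namespace Pool.Agent.Results.MP_07b2d0_nt.BoundedAdviceFewExceptions

open Pool.Agent.H201.AD Nat
open Pool.Agent.Results.MP_07b2d0_nt.ExactReductions (Setting IsSetting maxTo maxTo_computable le_maxTo)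

/-- Quadratic twists. Let `A` be simple (in particular not zero) of dimension `g` with good reduction outside
`N`, and let `S` be the set of the primes which divide `N M` and do not divide `N`. For every subset of `S` there is a quadratic
character of `ℚ` which is ramified exactly at the primes in this subset; the twists `t s` of `A` by these
`2 ^ |S|` characters have good reduction outside `N M`, they are simple (the endomorphism algebra does
not change), and no two of them are isogenous (`A` has good reduction at the primes of `S`, hence the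
inertia groups act trivially on the Tate module of `A` and by a nontrivial character on the Tate module
of a ramified quadratic twist). If `B` is isogenous to `t s`, its twist `B'` by the same character is isogenous
to `A`, so has good reduction outside `N`, and has the same stable height as `B`. -/
structure HasTwists (D : Setting) : Prop where
  /-- there are no abelian schemes over `ℤ[1/0]`, by convention -/
  zero : ∀ g, IsEmpty (D.AV 0 g)
  twist : ∀ (N g M : ℕ) (A : D.AV N g), D.Simple A → 0 < M →
    ∃ t : Fin (2 ^ ((N * M).primeFactors \ N.primeFactors).card) → D.AV (N * M) g,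
      (∀ s, D.Simple (t s)) ∧ (∀ s s', D.Isog (t s) (t s') → s = s') ∧
      ∀ s (B : D.AV (N * M) g), D.Isog (t s) B → ∃ B' : D.AV N g, D.Isog A B' ∧ D.h B' = D.h B

/-- for every `g ≤ j`, at most `e` isogeny classes of simple abelian varieties of dimension `g` over `ℚ` with
good reduction at all primes `p > j` have no member of height at most `c` -/
def FewExceptions (D : Setting) (j c e : ℕ) : Prop :=
  ∀ g ≤ j, ∀ (n : ℕ) (t : Fin n → D.AV (j !) g),
    (∀ s, D.Simple (t s) ∧ ∀ B, D.Isog (t s) B → (c : ℝ) < D.h B) →
    (∀ s s', D.Isog (t s) (t s') → s = s') → n ≤ e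

/-- every isogeny class of simple abelian varieties in `AV N g` has a member of height at most `c` -/
def NoException (D : Setting) (N g c : ℕ) : Prop :=
  ∀ A : D.AV N g, D.Simple A → ∃ B : D.AV N g, D.Isog A B ∧ D.h B ≤ c

variable {D : Setting}

lemma NoException.descend (hT : HasTwists D) {N M g c : ℕ} (hM : 0 < M)
    (h : NoException D (N * M) g c) : NoException D N g c := by
  intro A hA
  obtain ⟨t, h1, _, h3⟩ := hT.twist N g M A hA hM
  obtain ⟨B, h4, h5⟩ := h (t ⟨0, by positivity⟩) (h1 _)
  obtain ⟨B', h6, h7⟩ := h3 _ B h4
  exact ⟨B', h6, by rw [h7]; exact h5⟩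

lemma NoException.of_dvd (hT : HasTwists D) {N N' g c : ℕ} (hd : N ∣ N') (hN : N' ≠ 0)
    (h : NoException D N' g c) : NoException D N g c := by
  obtain ⟨M, rfl⟩ := hd
  exact h.descend hT (Nat.pos_of_ne_zero fun h0 => hN (by rw [h0, mul_zero]))

/-- the number of quadratic twists beats the number of exceptions -/
lemma noException_of_few (hT : HasTwists D) {i j c e g : ℕ} (hij : i ≤ j) (hg : g ≤ i)
    (hlt : 2 ^ Nat.primeCounting i * e < 2 ^ Nat.primeCounting j)
    (h : FewExceptions D j c e) : NoException D (i !) g c := by
  intro A hA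
  by_contra hB
  push Not at hB
  obtain ⟨M, hM⟩ := Nat.factorial_dvd_factorial hij
  have hM0 : 0 < M := Nat.pos_of_ne_zero fun h0 => Nat.factorial_ne_zero j (by
    rw [hM, h0, mul_zero])
  obtain ⟨t, h1, h2, h3⟩ := hT.twist (i !) g M A hA hM0
  have hnew := card_new_primes hij hM
  unfold FewExceptions at h
  rw [hM] at h
  have h4 := h g (hg.trans hij) _ t (fun s => ⟨h1 s, fun B hsB => by
    obtain ⟨B', h5, h6⟩ := h3 s B hsB
    rw [← h6]
    exact hB B' h5⟩) h2
  have h5 : 2 ^ Nat.primeCounting j ≤
      2 ^ Nat.primeCounting i * 2 ^ ((i ! * M).primeFactors \ (i !).primeFactors).card := by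
    rw [← pow_add]
    exact Nat.pow_le_pow_right (by norm_num) hnew
  have h6 := Nat.mul_le_mul_left (2 ^ Nat.primeCounting i) h4
  omega

/-- **The effective Shafarevich conjecture: boundedly many guesses and few exceptions.** See the
explanations above. -/
theorem result (hD : IsSetting D) (hT : HasTwists D) : List.TFAE [
    ∃ c : ℕ × ℕ → ℕ, Computable c ∧ ∀ (N g : ℕ) (A : D.AV N g), D.h A ≤ c (N, g),
    ∃ (k : ℕ) (e : ℕ → ℕ) (r : ℕ → Bool) (F : ℕ × ℕ →. ℕ), Computable e ∧ Computable r ∧ Partrec F ∧
      (∀ m, ∃ j ≥ m, r j = true ∧ 2 ^ m * e j < 2 ^ Nat.primeCounting j) ∧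
      ∀ j, r j = true → ∃ b < k, ∃ c ∈ F (j, b), FewExceptions D j c (e j),
    ∃ (k : ℕ) (e : ℕ → ℕ) (r : ℕ → Bool) (G : ℕ × ℕ → ℕ), Computable e ∧ Computable r ∧ Computable G ∧
      (∀ m, ∃ j ≥ m, r j = true ∧ 2 ^ m * e j < 2 ^ Nat.primeCounting j) ∧
      ∀ j, r j = true → ∃ s₀, (∀ s ≥ s₀, G (j, s) = G (j, s₀)) ∧
        {s | G (j, s + 1) ≠ G (j, s)}.ncard ≤ k ∧ FewExceptions D j (G (j, s₀)) (e j)] := by
  tfae_have 1 → 3 := by
    rintro ⟨c, h1, h2⟩
    refine ⟨0, fun _ => 0, fun _ => true, fun x => maxTo c (x.1 !, x.1), Computable.const 0,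
      Computable.const true, ?_, fun m => ⟨m, le_rfl, rfl, ?_⟩, fun j _ => ⟨0, fun _ _ => rfl, ?_, ?_⟩⟩
    · have a1 : Computable fun x : ℕ × ℕ => x.1 ! := primrec_factorial.to_comp.comp Computable.fst
      exact (maxTo_computable h1).comp (Computable.pair a1 Computable.fst)
    · simp
    · simp
    · intro g hg n t h3 _
      rcases Nat.eq_zero_or_pos n with rfl | hn
      · exact le_rfl
      · exfalso
        obtain ⟨h4, h5⟩ := h3 ⟨0, hn⟩
        have h6 := h5 _ (hD.refl _ _ _)
        have h7 := h2 _ _ (t ⟨0, hn⟩)
        have h8 : (c (j !, g) : ℝ) ≤ (maxTo c (j !, j) : ℝ) := by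
          exact_mod_cast le_maxTo c (j !) hg
        exact absurd h6 (not_lt.2 (h7.trans h8))
  tfae_have 3 → 2 := by
    rintro ⟨k, e, r, G, he, hr, hG, hdens, hadv⟩
    obtain ⟨F, hF, h⟩ := bounded_of_mind_changes_exceptions (FewExceptions D) k e r G hG hadv
    exact ⟨k + 1, e, r, F, he, hr, hF, hdens, h⟩
  tfae_have 2 → 1 := by
    rintro ⟨k, e, r, F, he, hr, hF, hdens, hadv⟩
    obtain ⟨C, hC, hC'⟩ := bounded_of_advice_exceptions
      (fun i c => ∀ g ≤ i, NoException D (i !) g c) (FewExceptions D)
      (fun j => 2 ^ Nat.primeCounting j) (fun j => 2 ^ Nat.primeCounting j)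
      computable_two_pow_primeCounting computable_two_pow_primeCounting (fun z => z.2)
      Computable.snd
      (fun i c c' hc h g hg A hA => by
        obtain ⟨B, h1, h2⟩ := h g hg A hA
        exact ⟨B, h1, h2.trans (by exact_mod_cast hc)⟩)
      (fun i j c hij h g hg =>
        (h g (hg.trans hij)).of_dvd hT (Nat.factorial_dvd_factorial hij) (Nat.factorial_ne_zero j))
      (fun i j c e' hij hlt h g hg => noException_of_few hT hij hg hlt h)
      k e he r hr F hF hdens hadv
    have h41 := (ExactReductions.result hD 1 1 one_pos one_pos).out 3 0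
    refine h41.1 ⟨fun x => C (max x.1 x.2), ?_, fun N g A hA => ?_⟩
    · have a1 : Computable fun x : ℕ × ℕ => max x.1 x.2 := Primrec.nat_max.to_comp
      exact hC.comp a1
    · rcases Nat.eq_zero_or_pos N with rfl | hN
      · exact ((hT.zero g).false A).elim
      · have h1 : N ∣ (max N g)! := Nat.dvd_factorial hN (le_max_left _ _)
        exact (hC' (max N g) g (le_max_right _ _)).of_dvd hT h1 (Nat.factorial_ne_zero _) A hA
  tfae_finish

end Pool.Agent.Results.MP_07b2d0_nt.BoundedAdviceFewExceptions
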